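import Pool.Agent.Hhelper96.QA.Defs
import Pool.Agent.Hhelper96.UB.Assembly

/-!
Unitary conjugation: spectra, norms, and bounds on the local images.
-/

set_option autoImplicit false
set_option linter.unusedSectionVars false

open scoped BigOperators
open Filter Matrix

namespace Pool.Agent.Hhelper96.PEPS

section unitary

variable {n : Type} [Fintype n] [DecidableEq n]

theorem sqn_unitary {U : Matrix n n ℂ} (hU : Uᴴ * U = 1) (φ : n → ℂ) :
    sqn (U.mulVec φ) = sqn φ := by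
  have h1 := star_dot_self (U.mulVec φ)
  have h2 := star_dot_self φ
  have h3 : star (U.mulVec φ) ⬝ᵥ U.mulVec φ = star φ ⬝ᵥ φ := by
    rw [Matrix.star_mulVec, ← Matrix.dotProduct_mulVec, Matrix.mulVec_mulVec, hU,
      Matrix.one_mulVec]
  rw [h3, h2] at h1
  exact_mod_cast h1.symm

theorem bd_conj {U X : Matrix n n ℂ} {c : ℝ} (hU : Uᴴ * U = 1) (hX : Bd c X) :
    Bd c (Uᴴ * X * U) := by
  have hU' : U * Uᴴ = 1 := mul_eq_one_comm.1 hU
  have hU'' : (Uᴴ)ᴴ * Uᴴ = 1 := by rw [Matrix.conjTranspose_conjTranspose]; exact hU'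
  refine ⟨hX.1, fun φ => ?_⟩
  rw [← Matrix.mulVec_mulVec, ← Matrix.mulVec_mulVec, sqn_unitary hU'']
  refine (hX.2 _).trans (le_of_eq ?_)
  rw [sqn_unitary hU]

theorem bd_entry {X : Matrix n n ℂ} {c : ℝ} (hX : Bd c X) (i j : n) : ‖X i j‖ ≤ c := by
  have h1 := hX.2 (Pi.single j 1)
  have h2 : sqn (Pi.single j 1 : n → ℂ) = 1 := by
    unfold sqn
    rw [Finset.sum_eq_single j]
    · simp
    · intro k _ hk
      rw [Pi.single_eq_of_ne hk]
      simp
    · intro h; exact absurd (Finset.mem_univ _) h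
  rw [h2, mul_one, Matrix.mulVec_single_one] at h1
  have h3 : ‖X i j‖ ^ 2 ≤ c ^ 2 := by
    refine le_trans ?_ h1
    unfold sqn
    exact Finset.single_le_sum (f := fun k => ‖X.col j k‖ ^ 2) (fun k _ => by positivity)
      (Finset.mem_univ i)
  exact abs_le_of_sq_le_sq' h3 hX.1 |>.2 |> fun h => h

theorem gapped_conj {U H : Matrix n n ℂ} (hU : Uᴴ * U = 1) {Δ : ℝ} {φ : n → ℂ}
    (h : IsGappedGround (Uᴴ * H * U) Δ φ) : IsGappedGround H Δ (U.mulVec φ) := by
  have hU' : U * Uᴴ = 1 := mul_eq_one_comm.1 hU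
  obtain ⟨hne, E₀, h1, h2⟩ := h
  have hinj : ∀ x : n → ℂ, Uᴴ.mulVec (U.mulVec x) = x := by
    intro x
    rw [Matrix.mulVec_mulVec, hU, Matrix.one_mulVec]
  have hsurj : ∀ x : n → ℂ, U.mulVec (Uᴴ.mulVec x) = x := by
    intro x
    rw [Matrix.mulVec_mulVec, hU', Matrix.one_mulVec]
  have hconj : ∀ x : n → ℂ, H.mulVec (U.mulVec x) = U.mulVec ((Uᴴ * H * U).mulVec x) := by
    intro x
    rw [← Matrix.mulVec_mulVec, ← Matrix.mulVec_mulVec, hsurj]
  refine ⟨?_, E₀, ?_, ?_⟩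
  · intro h0
    apply hne
    rw [← hinj φ, h0, Matrix.mulVec_zero]
  · rw [hconj, h1, Matrix.mulVec_smul]
  · intro E χ hχ hE
    have hχ' : Uᴴ.mulVec χ ≠ 0 := by
      intro h0
      apply hχ
      rw [← hsurj χ, h0, Matrix.mulVec_zero]
    have h3 : (Uᴴ * H * U).mulVec (Uᴴ.mulVec χ) = (E : ℂ) • Uᴴ.mulVec χ := by
      rw [← Matrix.mulVec_mulVec, ← Matrix.mulVec_mulVec, hsurj, hE, Matrix.mulVec_smul]
    rcases h2 E _ hχ' h3 with ⟨c, hc⟩ | h4
    · left
      refine ⟨c, ?_⟩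
      rw [← hsurj χ, hc, Matrix.mulVec_smul]
    · right; exact h4

end unitary

section loc

variable {d : ℕ} [NeZero d]

/-- two local interactions with the same term on one torus, on which the window is embedded, agree -/
theorem entry_of_localTerm {L : ℕ} [NeZero L] {F' : Finset (ℤ × ℤ)} (v : Site L)
    (hinj : Function.Injective (fun p : F' => place L v p)) (a b : F' → Fin d) :
    ∃ s t : Site L → Fin d, ∀ M : Matrix (F' → Fin d) (F' → Fin d) ℂ,
      localTerm L F' M v s t = M a b := by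
  classical
  obtain ⟨κ, hκ⟩ : ∃ κ : F' → Site L, κ = fun p : F' => place L v p := ⟨_, rfl⟩
  rw [← hκ] at hinj
  refine ⟨overwrite κ (fun _ => 0) a, overwrite κ (fun _ => 0) b, fun M => ?_⟩
  rw [localTerm_eq_opAt, ← hκ]
  unfold opAt
  rw [if_pos, overwrite_comp hinj, overwrite_comp hinj]
  intro u hu
  rw [overwrite_not_mem _ _ _ _ hu, overwrite_not_mem _ _ _ _ hu]

/-- the local images of Hermitian operators are Hermitian and bounded -/
theorem image_bound {U : ∀ n : ℕ, Matrix (Site (n + 1) → Fin d) (Site (n + 1) → Fin d) ℂ}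
    (hU : ∀ᶠ n in atTop, (U n)ᴴ * U n = 1) {F F' : Finset (ℤ × ℤ)}
    {Φ : Matrix (F → Fin d) (F → Fin d) ℂ → Matrix (F' → Fin d) (F' → Fin d) ℂ}
    (hΦ : ∀ᶠ n in atTop, ∀ (V : Matrix (F → Fin d) (F → Fin d) ℂ) (v : Site (n + 1)),
      (U n)ᴴ * localTerm (n + 1) F V v * U n = localTerm (n + 1) F' (Φ V) v)
    (V : Matrix (F → Fin d) (F → Fin d) ℂ) (hV : V.IsHermitian) :
    (Φ V).IsHermitian ∧ ∀ a b, ‖Φ V a b‖ ≤ locBd V := by
  classical
  obtain ⟨r, a₀, b₀, hr, hF⟩ := exists_box F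
  obtain ⟨r', a₁, b₁, hr', hF'⟩ := exists_box F'
  obtain ⟨n, hn1, hn2, hn3, hn4⟩ := (hU.and (hΦ.and ((eventually_ge_atTop r).and
    (eventually_ge_atTop r')))).exists
  have hinj : Function.Injective (fun p : F => place (n + 1) (0 : Site (n + 1)) p) :=
    place_injective (by omega : r ≤ n + 1) F a₀ b₀ hF 0
  have hinj' : Function.Injective (fun p : F' => place (n + 1) (0 : Site (n + 1)) p) :=
    place_injective (by omega : r' ≤ n + 1) F' a₁ b₁ hF' 0
  have hVV := hn2 V 0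
  have hbd : Bd (locBd V) (localTerm (n + 1) F V 0) := by
    rw [localTerm_eq_opAt]
    exact bd_opAt hinj V
  have hconj := bd_conj hn1 hbd
  rw [hVV] at hconj
  constructor
  · have hLh : (localTerm (n + 1) F V 0).IsHermitian := by
      rw [localTerm_eq_opAt]
      unfold Matrix.IsHermitian
      rw [← opAt_conjTranspose, hV.eq]
    have h1 : (localTerm (n + 1) F' (Φ V) 0)ᴴ = localTerm (n + 1) F' (Φ V) 0 := by
      rw [← hVV, Matrix.conjTranspose_mul, Matrix.conjTranspose_mul,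
        Matrix.conjTranspose_conjTranspose, hLh.eq, Matrix.mul_assoc]
    have h2 : (localTerm (n + 1) F' (Φ V) 0)ᴴ = localTerm (n + 1) F' (Φ V)ᴴ 0 := by
      rw [localTerm_eq_opAt, localTerm_eq_opAt, opAt_conjTranspose]
    ext a b
    obtain ⟨s, t, hst⟩ := entry_of_localTerm (0 : Site (n + 1)) hinj' a b
    rw [← hst (Φ V)ᴴ, ← hst (Φ V), ← h2, h1]
  · intro a b
    obtain ⟨s, t, hst⟩ := entry_of_localTerm (0 : Site (n + 1)) hinj' a b
    rw [← hst (Φ V)]
    exact bd_entry hconj s t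

theorem locBd_le {T : Type} [Fintype T] [DecidableEq T] (p : Matrix (T → Fin d) (T → Fin d) ℂ)
    {c : ℝ} (hc : 0 ≤ c) (hp : ∀ a b, ‖p a b‖ ≤ c) :
    locBd p ≤ (Fintype.card (T → Fin d) : ℝ) ^ 2 * c := by
  obtain ⟨K, hK⟩ : ∃ K : ℝ, K = (Fintype.card (T → Fin d) : ℝ) := ⟨_, rfl⟩
  have hK1 : 1 ≤ K := by
    rw [hK]
    have : 0 < Fintype.card (T → Fin d) := Fintype.card_pos_iff.2 ⟨fun _ => 0⟩
    exact_mod_cast this
  unfold locBd
  rw [← hK]
  have h1 : ∑ a, ∑ b, ‖p a b‖ ^ 2 ≤ K * (K * c ^ 2) := by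
    calc ∑ a, ∑ b, ‖p a b‖ ^ 2 ≤ ∑ _a : T → Fin d, ∑ _b : T → Fin d, c ^ 2 :=
          Finset.sum_le_sum (fun a _ => Finset.sum_le_sum (fun b _ =>
            pow_le_pow_left₀ (norm_nonneg _) (hp a b) 2))
      _ = K * (K * c ^ 2) := by
          rw [Finset.sum_const, Finset.sum_const, Finset.card_univ, nsmul_eq_mul, nsmul_eq_mul, hK]
  calc √((∑ a, ∑ b, ‖p a b‖ ^ 2) * K) ≤ √((K ^ 2 * c) ^ 2) := by
        apply Real.sqrt_le_sqrt
        have h2 := mul_le_mul_of_nonneg_right h1 (by linarith : 0 ≤ K)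
        refine h2.trans ?_
        have h3 : K * (K * c ^ 2) * K = K ^ 3 * c ^ 2 := by ring
        have h4 : (K ^ 2 * c) ^ 2 = K ^ 4 * c ^ 2 := by ring
        rw [h3, h4]
        apply mul_le_mul_of_nonneg_right _ (sq_nonneg c)
        exact pow_le_pow_right₀ hK1 (by norm_num)
    _ = K ^ 2 * c := Real.sqrt_sq (by positivity)

end loc

end Pool.Agent.Hhelper96.PEPS
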