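import Pool.Agent.Hhelper96.PEPS.SitePeps

/-!
Translation invariant quantum cellular automata given by one PEPO tensor.
-/

set_option autoImplicit false

open scoped BigOperators
open Filter Matrix

namespace Pool.Agent.Hhelper96.PEPS

/-- The operator on the `L × L` torus obtained by placing the tensor `T` (two physical indices, row
and column, and the four virtual indices left, right, down, up, of dimension `D`) at every site and
contracting the virtual indices along the edges: a translation invariant PEPO. -/
noncomputable def pepoOp (L : ℕ) [NeZero L] {d D : ℕ}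
    (T : Fin d → Fin d → Fin D → Fin D → Fin D → Fin D → ℂ) :
    Matrix (Site L → Fin d) (Site L → Fin d) ℂ :=
  fun s t => ∑ a : Site L → Fin D, ∑ b : Site L → Fin D,
    ∏ v : Site L, T (s v) (t v) (a (v - (1, 0))) (a v) (b (v - (0, 1))) (b v)

/-- A translation invariant quantum cellular automaton given by a PEPO: on all large tori
`L = n + 1`, `U n` is unitary and is the PEPO of one tensor `T`, and it maps local operators to local
operators: every finite set `F` of lattice sites has a finite set `F'` and a map `Φ` from the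
operators on `F` to the operators on `F'` with `Uᴴ τ_v(V) U = τ_v(Φ V)` for all translates `v`. -/
def IsQCA {d : ℕ} (U : ∀ n : ℕ, Matrix (Site (n + 1) → Fin d) (Site (n + 1) → Fin d) ℂ) : Prop :=
  (∀ᶠ n in atTop, (U n)ᴴ * U n = 1) ∧
  (∃ (D : ℕ) (T : Fin d → Fin d → Fin D → Fin D → Fin D → Fin D → ℂ),
    ∀ᶠ n in atTop, U n = pepoOp (n + 1) T) ∧
  ∀ F : Finset (ℤ × ℤ), ∃ (F' : Finset (ℤ × ℤ))
    (Φ : Matrix (F → Fin d) (F → Fin d) ℂ → Matrix (F' → Fin d) (F' → Fin d) ℂ),
    ∀ᶠ n in atTop, ∀ (V : Matrix (F → Fin d) (F → Fin d) ℂ) (v : Site (n + 1)),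
      (U n)ᴴ * localTerm (n + 1) F V v * U n = localTerm (n + 1) F' (Φ V) v

end Pool.Agent.Hhelper96.PEPS
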