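import Pool.Agent.Hhelper96.QA.Defs
import Pool.Agent.Hhelper96.UB.PtraceNorm
import Pool.Agent.Hhelper96.PEPS.CommFinal

/-!
Marginals of a state transformed by a quantum cellular automaton are controlled by the marginals
of the state on a larger window.
-/

set_option autoImplicit false
set_option linter.unusedSectionVars false

open scoped BigOperators ComplexOrder
open Filter Matrix

namespace Pool.Agent.Hhelper96.PEPS

section loc

variable {S T : Type} [Fintype S] [DecidableEq S] [Fintype T] [DecidableEq T] {d : ℕ}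

theorem nsq_mulVec_of_unitary {U : Matrix (S → Fin d) (S → Fin d) ℂ} (hU : Uᴴ * U = 1)
    (ψ : (S → Fin d) → ℂ) : nsq (U.mulVec ψ) = nsq ψ := by
  have h : (outer (U.mulVec ψ)) = U * outer ψ * Uᴴ := by
    have e1 : outer (U.mulVec ψ) = Matrix.vecMulVec (U.mulVec ψ) (star (U.mulVec ψ)) := rfl
    have e2 : outer ψ = Matrix.vecMulVec ψ (star ψ) := rfl
    rw [e1, e2, Matrix.mul_vecMulVec, Matrix.vecMulVec_mul, Matrix.star_mulVec]
  have h2 : (outer (U.mulVec ψ)).trace = (outer ψ).trace := by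
    rw [h, Matrix.trace_mul_comm, ← Matrix.mul_assoc, hU, Matrix.one_mul]
  rw [trace_outer, trace_outer] at h2
  exact Complex.ofReal_injective h2

theorem density_mulVec_of_unitary {U : Matrix (S → Fin d) (S → Fin d) ℂ} (hU : Uᴴ * U = 1)
    (ψ : (S → Fin d) → ℂ) : density (U.mulVec ψ) = U * density ψ * Uᴴ := by
  have h : (outer (U.mulVec ψ)) = U * outer ψ * Uᴴ := by
    have e1 : outer (U.mulVec ψ) = Matrix.vecMulVec (U.mulVec ψ) (star (U.mulVec ψ)) := rfl
    have e2 : outer ψ = Matrix.vecMulVec ψ (star ψ) := rfl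
    rw [e1, e2, Matrix.mul_vecMulVec, Matrix.vecMulVec_mul, Matrix.star_mulVec]
  rw [density_eq, density_eq, nsq_mulVec_of_unitary hU, h, Matrix.mul_smul, Matrix.smul_mul]

/-- positivity of an operator on a window can be read off its embedding -/
theorem posSemidef_of_opAt {κ : T → S} (hκ : Function.Injective κ) (s₀ : S → Fin d)
    {Z : Matrix (T → Fin d) (T → Fin d) ℂ} (hZ : (opAt κ Z).PosSemidef) : Z.PosSemidef := by
  have h : Z = (opAt κ Z).submatrix (overwrite κ s₀) (overwrite κ s₀) := by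
    ext c c'
    rw [Matrix.submatrix_apply]
    unfold opAt
    rw [if_pos, overwrite_comp hκ, overwrite_comp hκ]
    intro u hu
    rw [overwrite_not_mem κ s₀ c u hu, overwrite_not_mem κ s₀ c' u hu]
  rw [h]
  exact hZ.submatrix _

theorem opAt_sub (κ : T → S) (p q : Matrix (T → Fin d) (T → Fin d) ℂ) :
    opAt κ (p - q) = opAt κ p - opAt κ q := by
  ext s s'
  simp only [opAt, Matrix.sub_apply]
  split_ifs <;> simp

end loc

theorem reduced_qca_core {d L : ℕ} [NeZero L] {R R' : Finset (ℤ × ℤ)} {v : Site L}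
    {U : Matrix (Site L → Fin d) (Site L → Fin d) ℂ} (hU : Uᴴ * U = 1)
    (hR : Function.Injective (fun p : R => place L v p))
    (hR' : Function.Injective (fun p : R' => place L v p))
    (Φ : Matrix (R → Fin d) (R → Fin d) ℂ → Matrix (R' → Fin d) (R' → Fin d) ℂ)
    (hΦ : ∀ V, Uᴴ * localTerm L R V v * U = localTerm L R' (Φ V) v)
    (ψ φ : (Site L → Fin d) → ℂ) (hψ : ψ ≠ 0) :
    traceNorm (reduced L R v (U.mulVec ψ) - reduced L R v (U.mulVec φ)) ≤
      traceNorm (reduced L R' v ψ - reduced L R' v φ) := by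
  have hUU : U * Uᴴ = 1 := mul_eq_one_comm.1 hU
  obtain ⟨s₀, -⟩ : ∃ s, ψ s ≠ 0 := Function.ne_iff.1 hψ
  set κ : R → Site L := fun p => place L v p with hκ
  set κ' : R' → Site L := fun p => place L v p with hκ'
  obtain ⟨W, hW, h⟩ := exists_contr_trace_eq
    (reduced L R v (U.mulVec ψ) - reduced L R v (U.mulVec φ))
  have h1 : traceNorm (reduced L R v (U.mulVec ψ) - reduced L R v (U.mulVec φ)) =
      ‖(Wᴴ * (reduced L R v (U.mulVec ψ) - reduced L R v (U.mulVec φ))).trace‖ := by
    rw [h, Complex.norm_real, Real.norm_of_nonneg (traceNorm_nonneg _)]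
  set Y : Matrix (R' → Fin d) (R' → Fin d) ℂ := (Φ Wᴴ)ᴴ with hY
  have hYH : Yᴴ = Φ Wᴴ := by rw [hY, Matrix.conjTranspose_conjTranspose]
  have hΦW : Uᴴ * opAt κ Wᴴ * U = opAt κ' (Φ Wᴴ) := by
    have := hΦ Wᴴ
    rwa [localTerm_eq_opAt, localTerm_eq_opAt] at this
  have hYc : IsContr Y := by
    unfold IsContr
    apply posSemidef_of_opAt hR' s₀
    have hWc := (IsContr.opAt hR hW)
    unfold IsContr at hWc
    have e1 : opAt κ' (1 - Yᴴ * Y) = Uᴴ * (1 - (opAt κ W)ᴴ * opAt κ W) * U := by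
      rw [opAt_sub, opAt_one hR', opAt_mul hR', hYH, hY, opAt_conjTranspose, ← hΦW,
        opAt_conjTranspose, Matrix.conjTranspose_mul, Matrix.conjTranspose_mul,
        Matrix.conjTranspose_conjTranspose, Matrix.conjTranspose_conjTranspose]
      calc 1 - Uᴴ * (opAt κ W)ᴴ * U * (Uᴴ * (opAt κ W * U))
          = 1 - Uᴴ * (opAt κ W)ᴴ * (U * Uᴴ) * opAt κ W * U := by noncomm_ring
        _ = Uᴴ * U - Uᴴ * (opAt κ W)ᴴ * opAt κ W * U := by rw [hUU, hU]; noncomm_ring
        _ = _ := by noncomm_ring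
    rw [e1]
    exact hWc.conjTranspose_mul_mul_same U
  have key : ∀ χ : (Site L → Fin d) → ℂ,
      (Wᴴ * reduced L R v (U.mulVec χ)).trace = (Yᴴ * reduced L R' v χ).trace := by
    intro χ
    unfold reduced
    rw [Matrix.trace_mul_comm, trace_ptrace_mul, density_mulVec_of_unitary hU,
      Matrix.trace_mul_comm Yᴴ, trace_ptrace_mul, hYH, ← hΦW]
    have : U * density χ * Uᴴ * opAt κ Wᴴ = U * (density χ * Uᴴ * opAt κ Wᴴ) := by noncomm_ring
    rw [this, Matrix.trace_mul_comm]
    congr 1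
    noncomm_ring
  rw [h1, Matrix.mul_sub, Matrix.trace_sub, key, key, ← Matrix.trace_sub, ← Matrix.mul_sub]
  exact norm_trace_le_traceNorm _ hYc

/-- a window is embedded injectively in all large tori -/
theorem eventually_place_injective (R : Finset (ℤ × ℤ)) : ∀ᶠ n : ℕ in atTop,
    ∀ v : Site (n + 1), Function.Injective (fun p : R => place (n + 1) v p) := by
  obtain ⟨r, a, b, -, hR⟩ := exists_box R
  filter_upwards [eventually_ge_atTop r] with n hn v
  exact place_injective (by omega : r ≤ n + 1) R a b hR v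

/-- marginals of the image of a state under a quantum cellular automaton differ by at most the
difference of the marginals of the states on a larger window -/
theorem reduced_qca {d : ℕ} (U : ∀ n : ℕ, Matrix (Site (n + 1) → Fin d) (Site (n + 1) → Fin d) ℂ)
    (hU : IsQCA U) (R : Finset (ℤ × ℤ)) : ∃ R' : Finset (ℤ × ℤ), ∀ᶠ n in atTop,
      ∀ ψ φ : (Site (n + 1) → Fin d) → ℂ, ψ ≠ 0 → φ ≠ 0 → ∀ v : Site (n + 1),
        traceNorm (reduced (n + 1) R v ((U n).mulVec ψ) - reduced (n + 1) R v ((U n).mulVec φ)) ≤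
          traceNorm (reduced (n + 1) R' v ψ - reduced (n + 1) R' v φ) := by
  obtain ⟨h1, -, h3⟩ := hU
  obtain ⟨R', Φ, hΦ⟩ := h3 R
  refine ⟨R', ?_⟩
  filter_upwards [h1, hΦ, eventually_place_injective R, eventually_place_injective R']
    with n hn hΦn hRn hRn' ψ φ hψ _ v
  exact reduced_qca_core hn (hRn v) (hRn' v) Φ (fun V => hΦn V v) ψ φ hψ

end Pool.Agent.Hhelper96.PEPS
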