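import Pool.Agent.Hhelper96.QA.Defs
import Pool.Agent.Hhelper96.QA.Loc
import Pool.Agent.Hhelper96.PEPS.Window

/-!
Examples of quantum cellular automata in the sense of `IsQCA`: the identity, products, diagonal
phase circuits, on-site unitaries.
-/

set_option autoImplicit false
set_option linter.unusedSectionVars false

open scoped BigOperators
open Filter Matrix

namespace Pool.Agent.Hhelper96.PEPS

section mul

variable {d D D' : ℕ}

/-- the tensor of a product of two PEPOs -/
noncomputable def mulTensor (T : Fin d → Fin d → Fin D → Fin D → Fin D → Fin D → ℂ)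
    (T' : Fin d → Fin d → Fin D' → Fin D' → Fin D' → Fin D' → ℂ) :
    Fin d → Fin d → Fin (D * D') → Fin (D * D') → Fin (D * D') → Fin (D * D') → ℂ :=
  fun s t l r dn up => ∑ k : Fin d,
    T s k (finProdFinEquiv.symm l).1 (finProdFinEquiv.symm r).1 (finProdFinEquiv.symm dn).1
      (finProdFinEquiv.symm up).1 *
    T' k t (finProdFinEquiv.symm l).2 (finProdFinEquiv.symm r).2 (finProdFinEquiv.symm dn).2
      (finProdFinEquiv.symm up).2

theorem pepoOp_mul (L : ℕ) [NeZero L]
    (T : Fin d → Fin d → Fin D → Fin D → Fin D → Fin D → ℂ)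
    (T' : Fin d → Fin d → Fin D' → Fin D' → Fin D' → Fin D' → ℂ) :
    pepoOp L (mulTensor T T') = pepoOp L T * pepoOp L T' := by
  ext s t
  let E : (Site L → Fin (D * D')) ≃ (Site L → Fin D) × (Site L → Fin D') :=
    (Equiv.arrowCongr (Equiv.refl (Site L)) finProdFinEquiv.symm).trans
      (Equiv.arrowProdEquivProdArrow (Site L) (fun _ => Fin D) (fun _ => Fin D'))
  have hE : ∀ (x : Site L → Fin (D * D')) (v : Site L),
      (finProdFinEquiv.symm (x v)) = ((E x).1 v, (E x).2 v) := fun x v => rfl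
  have h1 : pepoOp L (mulTensor T T') s t =
      ∑ p : (Site L → Fin D) × (Site L → Fin D'), ∑ q : (Site L → Fin D) × (Site L → Fin D'),
        ∏ v, ∑ k : Fin d, T (s v) k (p.1 (v - (1, 0))) (p.1 v) (q.1 (v - (0, 1))) (q.1 v) *
          T' k (t v) (p.2 (v - (1, 0))) (p.2 v) (q.2 (v - (0, 1))) (q.2 v) := by
    unfold pepoOp
    apply Fintype.sum_equiv E
    intro a
    apply Fintype.sum_equiv E
    intro b
    refine Finset.prod_congr rfl (fun v _ => ?_)
    unfold mulTensor
    simp only [hE]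
  have h2 : ∀ p q : (Site L → Fin D) × (Site L → Fin D'),
      (∏ v, ∑ k : Fin d, T (s v) k (p.1 (v - (1, 0))) (p.1 v) (q.1 (v - (0, 1))) (q.1 v) *
          T' k (t v) (p.2 (v - (1, 0))) (p.2 v) (q.2 (v - (0, 1))) (q.2 v)) =
        ∑ k : Site L → Fin d,
          (∏ v, T (s v) (k v) (p.1 (v - (1, 0))) (p.1 v) (q.1 (v - (0, 1))) (q.1 v)) *
          ∏ v, T' (k v) (t v) (p.2 (v - (1, 0))) (p.2 v) (q.2 (v - (0, 1))) (q.2 v) := by
    intro p q
    rw [Finset.prod_univ_sum, Fintype.piFinset_univ]
    refine Finset.sum_congr rfl (fun k _ => ?_)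
    rw [Finset.prod_mul_distrib]
  rw [h1, Matrix.mul_apply]
  simp_rw [h2]
  unfold pepoOp
  simp_rw [Finset.sum_mul_sum, Fintype.sum_prod_type]
  -- move the sum over `k` to the front
  have e : ∀ F : (Site L → Fin D) → (Site L → Fin D') → (Site L → Fin D) → (Site L → Fin D') →
      (Site L → Fin d) → ℂ,
      (∑ a, ∑ a', ∑ b, ∑ b', ∑ k, F a a' b b' k) = ∑ k, ∑ a, ∑ a', ∑ b, ∑ b', F a a' b b' k := by
    intro F
    have e1 : ∀ a a' b, (∑ b', ∑ k, F a a' b b' k) = ∑ k, ∑ b', F a a' b b' k :=
      fun a a' b => Finset.sum_comm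
    have e2 : ∀ a a', (∑ b, ∑ k, ∑ b', F a a' b b' k) = ∑ k, ∑ b, ∑ b', F a a' b b' k :=
      fun a a' => Finset.sum_comm
    have e3 : ∀ a, (∑ a', ∑ k, ∑ b, ∑ b', F a a' b b' k) = ∑ k, ∑ a', ∑ b, ∑ b', F a a' b b' k :=
      fun a => Finset.sum_comm
    simp_rw [e1, e2, e3]
    exact Finset.sum_comm
  rw [e]

end mul

theorem isQCA_one (d : ℕ) :
    IsQCA (fun n : ℕ => (1 : Matrix (Site (n + 1) → Fin d) (Site (n + 1) → Fin d) ℂ)) := by
  refine ⟨Eventually.of_forall fun n => by simp, ⟨1, fun s t _ _ _ _ => if s = t then 1 else 0,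
    Eventually.of_forall fun n => ?_⟩, fun F => ⟨F, id, Eventually.of_forall fun n V v => by simp⟩⟩
  ext s t
  unfold pepoOp
  simp only [Fintype.sum_unique]
  by_cases h : s = t
  · subst h
    simp
  · rw [Matrix.one_apply_ne h]
    symm
    obtain ⟨v, hv⟩ : ∃ v, s v ≠ t v := by
      by_contra hcon
      push Not at hcon
      exact h (funext hcon)
    exact Finset.prod_eq_zero (Finset.mem_univ v) (if_neg hv)

theorem IsQCA.mul {d : ℕ}
    {U W : ∀ n : ℕ, Matrix (Site (n + 1) → Fin d) (Site (n + 1) → Fin d) ℂ}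
    (hU : IsQCA U) (hW : IsQCA W) : IsQCA (fun n => U n * W n) := by
  obtain ⟨u1, ⟨D, T, u2⟩, u3⟩ := hU
  obtain ⟨w1, ⟨D', T', w2⟩, w3⟩ := hW
  refine ⟨?_, ⟨D * D', mulTensor T T', ?_⟩, ?_⟩
  · filter_upwards [u1, w1] with n hu hw
    rw [Matrix.conjTranspose_mul]
    calc (W n)ᴴ * (U n)ᴴ * (U n * W n) = (W n)ᴴ * ((U n)ᴴ * U n) * W n := by noncomm_ring
      _ = 1 := by rw [hu, Matrix.mul_one, hw]
  · filter_upwards [u2, w2] with n hu hw
    rw [pepoOp_mul, hu, hw]
  · intro F
    obtain ⟨F', Φ, hΦ⟩ := u3 F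
    obtain ⟨F'', Ψ, hΨ⟩ := w3 F'
    refine ⟨F'', fun V => Ψ (Φ V), ?_⟩
    filter_upwards [hΦ, hΨ] with n h1 h2 V v
    rw [Matrix.conjTranspose_mul, ← h2, ← h1]
    noncomm_ring

section phase

variable {d : ℕ}

/-- the diagonal operator that multiplies by a product of phases of all translates of a window -/
noncomputable def phaseOp (G : Finset (ℤ × ℤ)) (f : (G → Fin d) → ℂ) (L : ℕ) [NeZero L] :
    Matrix (Site L → Fin d) (Site L → Fin d) ℂ :=
  Matrix.diagonal (fun x => ∏ v : Site L, f (fun p : G => x (place L v p)))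

/-- a diagonal PEPO -/
theorem diagonal_pepsVec (L : ℕ) [NeZero L] {D : ℕ}
    (A : Fin d → Fin D → Fin D → Fin D → Fin D → ℂ) :
    pepoOp L (fun s t l r dn up => if s = t then A s l r dn up else 0) =
      Matrix.diagonal (pepsVec L A) := by
  ext s t
  by_cases h : s = t
  · subst h
    rw [Matrix.diagonal_apply_eq]
    unfold pepoOp pepsVec
    simp
  · rw [Matrix.diagonal_apply_ne _ h]
    obtain ⟨v, hv⟩ : ∃ v, s v ≠ t v := by
      by_contra hcon
      push Not at hcon
      exact h (funext hcon)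
    unfold pepoOp
    refine Finset.sum_eq_zero (fun a _ => Finset.sum_eq_zero (fun b _ => ?_))
    exact Finset.prod_eq_zero (Finset.mem_univ v) (if_neg hv)

/-- products of translates of a function of a window are PEPS -/
theorem exists_pepsVec_prod (G : Finset (ℤ × ℤ)) (f : (G → Fin d) → ℂ) :
    ∃ (D : ℕ) (A : Fin d → Fin D → Fin D → Fin D → Fin D → ℂ), ∀ (L : ℕ) [NeZero L],
      pepsVec L A = fun x => ∏ v : Site L, f (fun p : G => x (place L v p)) := by
  classical
  obtain ⟨r, a, b, hr, hG⟩ := exists_box G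
  have : NeZero r := ⟨by omega⟩
  -- the position of a site of the window in the box
  let pos : G → Fin r × Fin r := fun p =>
    (⟨(p.1.1 - a).toNat, by have := hG p.1 p.2; omega⟩,
      ⟨(p.1.2 - b).toNat, by have := hG p.1 p.2; omega⟩)
  let w : (Fin r × Fin r → Fin d) → (Fin r × Fin r → Fin 1) → ℂ := fun sw _ => f (fun p => sw (pos p))
  let e : (Fin r × Fin r → Fin d × Fin 1) ≃ Fin (Fintype.card (Fin r × Fin r → Fin d × Fin 1)) :=
    Fintype.equivFin _
  let W₀ : Fin d → (Fin r × Fin r → Fin d × Fin 1) → (Fin r × Fin r → Fin d × Fin 1) →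
      (Fin r × Fin r → Fin d × Fin 1) → ℂ := fun s l dwn y =>
    if (y (0, 0)).1 = s ∧
      (∀ q q' : Fin r × Fin r, (q.1 : ℕ) + 1 = q'.1 → q.2 = q'.2 → l q' = y q) ∧
      (∀ q q' : Fin r × Fin r, q.1 = q'.1 → (q.2 : ℕ) + 1 = q'.2 → dwn q' = y q) then
    w (fun q => (y q).1) (fun q => (y q).2) else 0
  refine ⟨_, gTensor e W₀, ?_⟩
  intro L _
  funext x
  have h1 : pepsVec L (gTensor e W₀) x = netT (winW (N := L) (fun _ => w)) x := by
    rw [pepsVec_gTensor]
    unfold netT
    refine Finset.sum_congr rfl (fun y _ => Finset.prod_congr rfl (fun v _ => ?_))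
    change W₀ _ _ _ _ = winW (N := L) (fun _ => w) _ _ _ _ _
    unfold winW
    rfl
  rw [h1, netT_winW, Fintype.sum_unique]
  -- shift the base point
  let t : Site L := ((a : ZMod L), (b : ZMod L))
  have h2 : (∏ v, w (x ∘ win L r v) ((default : Site L → Fin 1) ∘ win L r v)) =
      ∏ v, f (fun p => x (win L r (v + t) (pos p))) := by
    rw [← Equiv.prod_comp (Equiv.addRight t)]
    rfl
  rw [h2]
  refine Finset.prod_congr rfl (fun v _ => ?_)
  congr 1
  funext p
  congr 1
  have hp := hG p.1 p.2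
  unfold win place
  ext
  · change (v.1 + (a : ZMod L)) + (((p.1.1 - a).toNat : ℕ) : ZMod L) = v.1 + (p.1.1 : ZMod L)
    rw [toNat_cast L _ _ hp.1]
    ring
  · change (v.2 + (b : ZMod L)) + (((p.1.2 - b).toNat : ℕ) : ZMod L) = v.2 + (p.1.2 : ZMod L)
    rw [toNat_cast L _ _ hp.2.2.1]
    ring

/-- differences of two windows -/
def dif (F G : Finset (ℤ × ℤ)) : Finset (ℤ × ℤ) := (F ×ˢ G).image (fun q => q.1 - q.2)

/-- the window on which the conjugate of an operator on `F` acts -/
def ext (F G : Finset (ℤ × ℤ)) : Finset (ℤ × ℤ) :=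
  F ∪ (dif F G ×ˢ G).image (fun q => q.1 + q.2)

theorem mem_ext_left {F G : Finset (ℤ × ℤ)} {p : ℤ × ℤ} (hp : p ∈ F) : p ∈ ext F G :=
  Finset.mem_union_left _ hp

theorem mem_ext_add {F G : Finset (ℤ × ℤ)} {q g : ℤ × ℤ} (hq : q ∈ dif F G) (hg : g ∈ G) :
    q + g ∈ ext F G :=
  Finset.mem_union_right _ (Finset.mem_image.2 ⟨(q, g), Finset.mem_product.2 ⟨hq, hg⟩, rfl⟩)

theorem place_place (L : ℕ) (v : Site L) (p q : ℤ × ℤ) :
    place L (place L v p) q = place L v (p + q) := by
  unfold place
  ext <;> simp [add_assoc]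

open Classical in
/-- the conjugate of an operator on `F` by the phase operator -/
noncomputable def phaseConj (F G : Finset (ℤ × ℤ)) (f : (G → Fin d) → ℂ)
    (V : Matrix (F → Fin d) (F → Fin d) ℂ) : Matrix (ext F G → Fin d) (ext F G → Fin d) ℂ :=
  fun c c' => if (∀ p : ext F G, (p : ℤ × ℤ) ∉ F → c p = c' p) then
    V (fun p => c ⟨p, mem_ext_left p.2⟩) (fun p => c' ⟨p, mem_ext_left p.2⟩) *
      ∏ q : dif F G, (star (f (fun g : G => c ⟨q + g, mem_ext_add q.2 g.2⟩)) *
        f (fun g : G => c' ⟨q + g, mem_ext_add q.2 g.2⟩)) else 0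

theorem phase_local (L : ℕ) [NeZero L] (F G : Finset (ℤ × ℤ)) (f : (G → Fin d) → ℂ)
    (hf : ∀ c, ‖f c‖ = 1) (v : Site L)
    (h1 : Function.Injective (fun p : ext F G => place L v p))
    (h2 : Function.Injective (fun p : dif F G => place L v p))
    (V : Matrix (F → Fin d) (F → Fin d) ℂ) :
    (phaseOp G f L)ᴴ * localTerm L F V v * phaseOp G f L =
      localTerm L (ext F G) (phaseConj F G f V) v := by
  classical
  have hf1 : ∀ c, star (f c) * f c = 1 := by
    intro c
    rw [mul_comm, mul_star_self, hf]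
    simp
  have hF : Function.Injective (fun p : F => place L v p) := by
    intro p p' h
    have h3 := @h1 ⟨p, mem_ext_left p.2⟩ ⟨p', mem_ext_left p'.2⟩ h
    exact Subtype.ext (congrArg (fun z : ext F G => (z : ℤ × ℤ)) h3)
  ext s s'
  unfold phaseOp
  rw [Matrix.diagonal_conjTranspose, Matrix.mul_diagonal, Matrix.diagonal_mul]
  change star (∏ w : Site L, f (fun p : G => s (place L w p))) * localTerm L F V v s s' *
    (∏ w : Site L, f (fun p : G => s' (place L w p))) = _
  by_cases hs : ∀ u, (∀ p : F, place L v p ≠ u) → s u = s' u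
  · -- both sides are nonzero
    have e1 : localTerm L F V v s s' = V (fun p => s (place L v p)) (fun p => s' (place L v p)) := by
      unfold localTerm
      rw [if_pos hs]
    have hs2 : ∀ u, (∀ p : ext F G, place L v p ≠ u) → s u = s' u := by
      intro u hu
      exact hs u (fun p => hu ⟨p, mem_ext_left p.2⟩)
    have hs3 : ∀ p : ext F G, (p : ℤ × ℤ) ∉ F → s (place L v p) = s' (place L v p) := by
      intro p hp
      apply hs
      intro q hq
      apply hp
      have h3 := @h1 ⟨q, mem_ext_left q.2⟩ p hq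
      rw [← h3]
      exact q.2
    have e2 : localTerm L (ext F G) (phaseConj F G f V) v s s' =
        V (fun p => s (place L v p)) (fun p => s' (place L v p)) *
        ∏ q : dif F G, (star (f (fun g : G => s (place L v (q + g)))) *
          f (fun g : G => s' (place L v (q + g)))) := by
      unfold localTerm
      rw [if_pos hs2]
      unfold phaseConj
      rw [if_pos hs3]
    rw [e1, e2]
    have e3 : star (∏ w : Site L, f (fun p : G => s (place L w p))) *
        (∏ w : Site L, f (fun p : G => s' (place L w p))) =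
        ∏ q : dif F G, (star (f (fun g : G => s (place L v (q + g)))) *
          f (fun g : G => s' (place L v (q + g)))) := by
      rw [star_prod, ← Finset.prod_mul_distrib]
      symm
      have e4 : ∀ q : dif F G, (star (f (fun g : G => s (place L v (q + g)))) *
          f (fun g : G => s' (place L v (q + g)))) =
          (fun w : Site L => star (f (fun p : G => s (place L w p))) *
            f (fun p : G => s' (place L w p))) (place L v q) := by
        intro q
        simp only [place_place]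
      simp_rw [e4]
      apply Finset.prod_of_injOn (fun q : dif F G => place L v q)
      · intro q _ q' _ h
        exact h2 h
      · intro q _
        simp
      · intro w _ hw
        -- a translate of `G` that misses the window
        have h5 : (fun p : G => s (place L w p)) = (fun p : G => s' (place L w p)) := by
          funext g
          apply hs
          intro p hp
          apply hw
          refine ⟨⟨(p : ℤ × ℤ) - g, Finset.mem_image.2 ⟨((p : ℤ × ℤ), (g : ℤ × ℤ)),
            Finset.mem_product.2 ⟨p.2, g.2⟩, rfl⟩⟩, by simp, ?_⟩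
          change place L v ((p : ℤ × ℤ) - g) = w
          have h6 : place L v ((p : ℤ × ℤ) - g) = place L (place L v p) (-(g : ℤ × ℤ)) := by
            rw [place_place, sub_eq_add_neg]
          rw [h6, hp, place_place, add_neg_cancel]
          unfold place
          simp
        rw [h5]
        exact hf1 _
      · intro q _
        rfl
    rw [← e3]
    ring
  · have e1 : localTerm L F V v s s' = 0 := by
      unfold localTerm
      rw [if_neg hs]
    rw [e1, mul_zero, zero_mul]
    symm
    unfold localTerm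
    by_cases hs2 : ∀ u, (∀ p : ext F G, place L v p ≠ u) → s u = s' u
    · rw [if_pos hs2]
      unfold phaseConj
      rw [if_neg]
      intro hs3
      apply hs
      intro u hu
      by_cases hu' : ∃ p : ext F G, place L v p = u
      · obtain ⟨p, rfl⟩ := hu'
        apply hs3 p
        intro hp
        exact hu ⟨p, hp⟩ rfl
      · push Not at hu'
        exact hs2 u hu'
    · rw [if_neg hs2]

/-- diagonal phase circuits, for example products of controlled phase gates, are quantum cellular
automata -/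
theorem isQCA_phase (G : Finset (ℤ × ℤ)) (f : (G → Fin d) → ℂ) (hf : ∀ c, ‖f c‖ = 1) :
    IsQCA (fun n : ℕ => phaseOp G f (n + 1)) := by
  obtain ⟨D, A, hA⟩ := exists_pepsVec_prod G f
  refine ⟨Eventually.of_forall fun n => ?_, ⟨D, fun s t l r dn up => if s = t then A s l r dn up
    else 0, Eventually.of_forall fun n => ?_⟩, fun F => ⟨ext F G, phaseConj F G f, ?_⟩⟩
  · unfold phaseOp
    rw [Matrix.diagonal_conjTranspose, Matrix.diagonal_mul_diagonal, ← Matrix.diagonal_one]
    congr 1
    funext x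
    change star (∏ v : Site (n + 1), f (fun p : G => x (place (n + 1) v p))) *
      (∏ v : Site (n + 1), f (fun p : G => x (place (n + 1) v p))) = 1
    rw [mul_comm, mul_star_self, norm_prod]
    simp [hf]
  · rw [diagonal_pepsVec, hA]
    rfl
  · filter_upwards [eventually_place_injective (ext F G), eventually_place_injective (dif F G)]
      with n h1 h2 V v
    exact phase_local (n + 1) F G f hf v (h1 v) (h2 v) V

end phase

section site

variable {S T : Type} [Fintype S] [DecidableEq S] [Fintype T] [DecidableEq T] {d : ℕ}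

/-- the tensor power of an operator on one site -/
def tens (S : Type) [Fintype S] {d : ℕ} (w : Matrix (Fin d) (Fin d) ℂ) :
    Matrix (S → Fin d) (S → Fin d) ℂ := fun s t => ∏ u, w (s u) (t u)

theorem tens_mul (w w' : Matrix (Fin d) (Fin d) ℂ) : tens S (w * w') = tens S w * tens S w' := by
  ext s t
  rw [Matrix.mul_apply]
  unfold tens
  simp_rw [Matrix.mul_apply]
  rw [Finset.prod_univ_sum, Fintype.piFinset_univ]
  simp_rw [Finset.prod_mul_distrib]

theorem tens_one : tens S (1 : Matrix (Fin d) (Fin d) ℂ) = 1 := by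
  ext s t
  unfold tens
  by_cases h : s = t
  · subst h
    simp
  · rw [Matrix.one_apply_ne h]
    obtain ⟨v, hv⟩ : ∃ v, s v ≠ t v := by
      by_contra hcon
      push Not at hcon
      exact h (funext hcon)
    exact Finset.prod_eq_zero (Finset.mem_univ v) (Matrix.one_apply_ne hv)

theorem tens_conjTranspose (w : Matrix (Fin d) (Fin d) ℂ) : tens S wᴴ = (tens S w)ᴴ := by
  ext s t
  rw [Matrix.conjTranspose_apply]
  unfold tens
  simp only [Matrix.conjTranspose_apply]
  rw [star_prod]

theorem prod_split {κ : T → S} (hκ : Function.Injective κ) (g : S → ℂ) :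
    ∏ u, g u = (∏ τ, g (κ τ)) * ∏ u : {u // ¬ u ∈ Set.range κ}, g u := by
  classical
  rw [← Fintype.prod_subtype_mul_prod_subtype (fun u => u ∈ Set.range κ) g]
  congr 1
  have h := Fintype.prod_equiv (Equiv.ofInjective κ hκ) (fun τ => g (κ τ))
    (fun u : {u // u ∈ Set.range κ} => g u) (fun τ => rfl)
  rw [h]
  exact Finset.prod_congr (Finset.ext fun x => by simp only [Finset.mem_univ]) (fun _ _ => rfl)

theorem overwrite_glue {κ : T → S} (hκ : Function.Injective κ) (a c : T → Fin d)
    (z : {u // ¬ u ∈ Set.range κ} → Fin d) : overwrite κ (glue κ a z) c = glue κ c z := by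
  funext u
  by_cases hu : u ∈ Set.range κ
  · obtain ⟨τ, rfl⟩ := hu
    rw [overwrite_mem hκ, glue_apply_mem κ hκ]
  · rw [overwrite_not_mem _ _ _ _ (fun t ht => hu ⟨t, ht⟩), glue_apply_not_mem κ _ _ u hu,
      glue_apply_not_mem κ _ _ u hu]

theorem tens_glue {κ : T → S} (hκ : Function.Injective κ) (w : Matrix (Fin d) (Fin d) ℂ)
    (a : T → Fin d) (z : {u // ¬ u ∈ Set.range κ} → Fin d) (t : S → Fin d) :
    tens S w (glue κ a z) t = tens T w a (t ∘ κ) *
      ∏ u : {u // ¬ u ∈ Set.range κ}, w (z u) (t u) := by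
  unfold tens
  rw [prod_split hκ]
  congr 1
  · refine Finset.prod_congr rfl (fun τ _ => ?_)
    rw [glue_apply_mem κ hκ]
    rfl
  · refine Finset.prod_congr rfl (fun u _ => ?_)
    rw [glue_apply_not_mem κ _ _ u.1 u.2]

theorem tens_conj_opAt {κ : T → S} (hκ : Function.Injective κ) {w : Matrix (Fin d) (Fin d) ℂ}
    (hw : wᴴ * w = 1) (V : Matrix (T → Fin d) (T → Fin d) ℂ) :
    (tens S w)ᴴ * opAt κ V * tens S w = opAt κ ((tens T w)ᴴ * V * tens T w) := by
  classical
  ext s t
  rw [Matrix.mul_assoc, Matrix.mul_apply]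
  have h1 : ∀ x, (opAt κ V * tens S w) x t =
      ∑ c : T → Fin d, V (x ∘ κ) c * tens S w (overwrite κ x c) t := by
    intro x
    rw [Matrix.mul_apply]
    exact sum_opAt hκ V x (fun y => tens S w y t)
  simp_rw [h1, Matrix.conjTranspose_apply]
  rw [← Equiv.sum_comp (glueEquiv κ hκ), Fintype.sum_prod_type]
  have h2 : ∀ (a : T → Fin d) (z : {u // ¬ u ∈ Set.range κ} → Fin d),
      star (tens S w (glueEquiv κ hκ (a, z)) s) *
        (∑ c : T → Fin d, V ((glueEquiv κ hκ (a, z)) ∘ κ) c *
          tens S w (overwrite κ (glueEquiv κ hκ (a, z)) c) t) =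
      (star (tens T w a (s ∘ κ)) * ∑ c : T → Fin d, V a c * tens T w c (t ∘ κ)) *
        ∏ u : {u // ¬ u ∈ Set.range κ}, (star (w (z u) (s u)) * w (z u) (t u)) := by
    intro a z
    have e1 : glueEquiv κ hκ (a, z) = glue κ a z := rfl
    have e2 : (glue κ a z) ∘ κ = a := by
      funext x
      exact glue_apply_mem κ hκ a z x
    rw [e1, e2]
    simp_rw [overwrite_glue hκ, tens_glue hκ]
    rw [star_mul', star_prod, Finset.prod_mul_distrib]
    have e3 : (∑ c : T → Fin d, V a c * (tens T w c (t ∘ κ) *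
        ∏ u : {u // ¬ u ∈ Set.range κ}, w (z u) (t u))) =
        (∑ c : T → Fin d, V a c * tens T w c (t ∘ κ)) *
          ∏ u : {u // ¬ u ∈ Set.range κ}, w (z u) (t u) := by
      rw [Finset.sum_mul]
      refine Finset.sum_congr rfl (fun c _ => ?_)
      ring
    rw [e3]
    ring
  simp_rw [h2]
  simp_rw [← Finset.mul_sum]
  rw [← Finset.sum_mul]
  have h3 : (∑ z : {u // ¬ u ∈ Set.range κ} → Fin d,
      ∏ u : {u // ¬ u ∈ Set.range κ}, (star (w (z u) (s u)) * w (z u) (t u))) =
      ∏ u : {u // ¬ u ∈ Set.range κ}, (1 : Matrix (Fin d) (Fin d) ℂ) (s u) (t u) := by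
    rw [← hw]
    simp_rw [Matrix.mul_apply, Matrix.conjTranspose_apply]
    rw [Finset.prod_univ_sum, Fintype.piFinset_univ]
  rw [h3]
  have h4 : (∑ a : T → Fin d, star (tens T w a (s ∘ κ)) *
      ∑ c : T → Fin d, V a c * tens T w c (t ∘ κ)) =
      ((tens T w)ᴴ * V * tens T w) (s ∘ κ) (t ∘ κ) := by
    rw [Matrix.mul_assoc, Matrix.mul_apply]
    refine Finset.sum_congr rfl (fun a _ => ?_)
    rw [Matrix.conjTranspose_apply, Matrix.mul_apply]
  rw [h4]
  unfold opAt
  by_cases h : ∀ u, (∀ t, κ t ≠ u) → s u = t u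
  · rw [if_pos h]
    have : ∏ u : {u // ¬ u ∈ Set.range κ}, (1 : Matrix (Fin d) (Fin d) ℂ) (s u) (t u) = 1 := by
      apply Finset.prod_eq_one
      intro u _
      rw [h u.1 (fun t ht => u.2 ⟨t, ht⟩)]
      exact Matrix.one_apply_eq _
    rw [this, mul_one]
  · rw [if_neg h]
    push Not at h
    obtain ⟨u, hu, hne⟩ := h
    have : ∏ u : {u // ¬ u ∈ Set.range κ}, (1 : Matrix (Fin d) (Fin d) ℂ) (s u) (t u) = 0 := by
      apply Finset.prod_eq_zero (Finset.mem_univ ⟨u, fun ⟨t, ht⟩ => hu t ht⟩)
      exact Matrix.one_apply_ne hne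
    rw [this, mul_zero]

/-- on-site unitaries are quantum cellular automata -/
theorem isQCA_site {w : Matrix (Fin d) (Fin d) ℂ} (hw : wᴴ * w = 1) :
    IsQCA (fun n : ℕ => tens (Site (n + 1)) w) := by
  refine ⟨Eventually.of_forall fun n => ?_, ⟨1, fun s t _ _ _ _ => w s t,
    Eventually.of_forall fun n => ?_⟩, fun F => ⟨F, fun V => (tens F w)ᴴ * V * tens F w, ?_⟩⟩
  · rw [← tens_conjTranspose, ← tens_mul, hw, tens_one]
  · ext s t
    unfold pepoOp tens
    simp only [Fintype.sum_unique]
  · filter_upwards [eventually_place_injective F] with n h1 V v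
    rw [localTerm_eq_opAt, localTerm_eq_opAt]
    exact tens_conj_opAt (h1 v) hw V

end site

end Pool.Agent.Hhelper96.PEPS
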