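import Pool.Agent.Hhelper96.QA.Defs

/-!
A PEPO applied to a PEPS is a PEPS.
-/

set_option autoImplicit false

open scoped BigOperators
open Filter Matrix

namespace Pool.Agent.Hhelper96.PEPS

/-- the tensor of the product of a PEPO and a PEPS -/
noncomputable def mulT {d D D' : ℕ} (T : Fin d → Fin d → Fin D → Fin D → Fin D → Fin D → ℂ)
    (A : Fin d → Fin D' → Fin D' → Fin D' → Fin D' → ℂ) :
    Fin d → Fin (D * D') → Fin (D * D') → Fin (D * D') → Fin (D * D') → ℂ :=
  fun s l r b t => ∑ x : Fin d,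
    T s x (finProdFinEquiv.symm l).1 (finProdFinEquiv.symm r).1 (finProdFinEquiv.symm b).1
      (finProdFinEquiv.symm t).1 *
    A x (finProdFinEquiv.symm l).2 (finProdFinEquiv.symm r).2 (finProdFinEquiv.symm b).2
      (finProdFinEquiv.symm t).2

/-- configurations of pairs of labels -/
noncomputable def splitE (S : Type) (D D' : ℕ) :
    (S → Fin (D * D')) ≃ (S → Fin D) × (S → Fin D') :=
  (Equiv.arrowCongr (Equiv.refl S) (finProdFinEquiv (m := D) (n := D')).symm).trans
    (Equiv.arrowProdEquivProdArrow S (fun _ => Fin D) (fun _ => Fin D'))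

theorem sum_split {S : Type} [Fintype S] [DecidableEq S] (D D' : ℕ)
    (f : (S → Fin D) → (S → Fin D') → ℂ) :
    ∑ a : S → Fin (D * D'), f (fun v => (finProdFinEquiv.symm (a v)).1)
      (fun v => (finProdFinEquiv.symm (a v)).2) = ∑ x : S → Fin D, ∑ y : S → Fin D', f x y := by
  rw [← Fintype.sum_prod_type']
  exact Fintype.sum_equiv (splitE S D D') _ _ (fun a => rfl)

theorem sitePeps_mulT {d D D' : ℕ} (T : Fin d → Fin d → Fin D → Fin D → Fin D → Fin D → ℂ)
    (L : ℕ) [NeZero L] (B : Site L → Fin d → Fin D' → Fin D' → Fin D' → Fin D' → ℂ) :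
    sitePepsVec L (fun v => mulT T (B v)) = (pepoOp L T).mulVec (sitePepsVec L B) := by
  classical
  funext s
  unfold Matrix.mulVec dotProduct
  have h1 : ∀ t : Site L → Fin d, pepoOp L T s t * sitePepsVec L B t =
      ∑ a : Site L → Fin D, ∑ a' : Site L → Fin D', ∑ b : Site L → Fin D,
        ∑ b' : Site L → Fin D', ∏ v : Site L,
          (T (s v) (t v) (a (v - (1, 0))) (a v) (b (v - (0, 1))) (b v) *
            B v (t v) (a' (v - (1, 0))) (a' v) (b' (v - (0, 1))) (b' v)) := by
    intro t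
    unfold pepoOp sitePepsVec
    rw [Finset.sum_mul_sum]
    refine Finset.sum_congr rfl (fun a _ => Finset.sum_congr rfl (fun a' _ => ?_))
    rw [Finset.sum_mul_sum]
    refine Finset.sum_congr rfl (fun b _ => Finset.sum_congr rfl (fun b' _ => ?_))
    rw [Finset.prod_mul_distrib]
  rw [Finset.sum_congr rfl (fun t _ => h1 t)]
  unfold sitePepsVec
  have h2 : ∀ (a : Site L → Fin D) (a' : Site L → Fin D') (b : Site L → Fin D)
      (b' : Site L → Fin D'),
      ∑ t : Site L → Fin d, ∏ v : Site L,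
          (T (s v) (t v) (a (v - (1, 0))) (a v) (b (v - (0, 1))) (b v) *
            B v (t v) (a' (v - (1, 0))) (a' v) (b' (v - (0, 1))) (b' v)) =
      ∏ v : Site L, ∑ x : Fin d,
          (T (s v) x (a (v - (1, 0))) (a v) (b (v - (0, 1))) (b v) *
            B v x (a' (v - (1, 0))) (a' v) (b' (v - (0, 1))) (b' v)) := by
    intro a a' b b'
    rw [Finset.prod_univ_sum, Fintype.piFinset_univ]
  have h3 : ∑ t : Site L → Fin d, ∑ a : Site L → Fin D, ∑ a' : Site L → Fin D',
      ∑ b : Site L → Fin D, ∑ b' : Site L → Fin D', ∏ v : Site L,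
          (T (s v) (t v) (a (v - (1, 0))) (a v) (b (v - (0, 1))) (b v) *
            B v (t v) (a' (v - (1, 0))) (a' v) (b' (v - (0, 1))) (b' v)) =
      ∑ a : Site L → Fin D, ∑ a' : Site L → Fin D',
      ∑ b : Site L → Fin D, ∑ b' : Site L → Fin D', ∏ v : Site L, ∑ x : Fin d,
          (T (s v) x (a (v - (1, 0))) (a v) (b (v - (0, 1))) (b v) *
            B v x (a' (v - (1, 0))) (a' v) (b' (v - (0, 1))) (b' v)) := by
    rw [Finset.sum_comm]
    refine Finset.sum_congr rfl (fun a _ => ?_)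
    rw [Finset.sum_comm]
    refine Finset.sum_congr rfl (fun a' _ => ?_)
    rw [Finset.sum_comm]
    refine Finset.sum_congr rfl (fun b _ => ?_)
    rw [Finset.sum_comm]
    refine Finset.sum_congr rfl (fun b' _ => ?_)
    exact h2 a a' b b'
  rw [h3, ← sum_split D D' (fun (a : Site L → Fin D) (a' : Site L → Fin D') =>
    ∑ b : Site L → Fin D, ∑ b' : Site L → Fin D', ∏ v : Site L, ∑ x : Fin d,
          (T (s v) x (a (v - (1, 0))) (a v) (b (v - (0, 1))) (b v) *
            B v x (a' (v - (1, 0))) (a' v) (b' (v - (0, 1))) (b' v)))]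
  refine Finset.sum_congr rfl (fun a _ => ?_)
  rw [← sum_split D D' (fun (b : Site L → Fin D) (b' : Site L → Fin D') =>
    ∏ v : Site L, ∑ x : Fin d,
          (T (s v) x (finProdFinEquiv.symm (a (v - (1, 0)))).1 (finProdFinEquiv.symm (a v)).1
            (b (v - (0, 1))) (b v) *
            B v x (finProdFinEquiv.symm (a (v - (1, 0)))).2 (finProdFinEquiv.symm (a v)).2
              (b' (v - (0, 1))) (b' v)))]
  rfl

theorem pepo_peps {d D D' : ℕ} (T : Fin d → Fin d → Fin D → Fin D → Fin D → Fin D → ℂ)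
    (A : Fin d → Fin D' → Fin D' → Fin D' → Fin D' → ℂ) :
    ∃ A' : Fin d → Fin (D * D') → Fin (D * D') → Fin (D * D') → Fin (D * D') → ℂ,
      ∀ (L : ℕ) [NeZero L], pepsVec L A' = (pepoOp L T).mulVec (pepsVec L A) :=
  ⟨mulT T A, fun L _ => sitePeps_mulT T L (fun _ => A)⟩

theorem pepo_site {d D D' : ℕ} (T : Fin d → Fin d → Fin D → Fin D → Fin D → Fin D → ℂ)
    (L : ℕ) [NeZero L] (B : Site L → Fin d → Fin D' → Fin D' → Fin D' → Fin D' → ℂ) :
    ∃ B' : Site L → Fin d → Fin (D * D') → Fin (D * D') → Fin (D * D') → Fin (D * D') → ℂ,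
      sitePepsVec L B' = (pepoOp L T).mulVec (sitePepsVec L B) :=
  ⟨fun v => mulT T (B v), sitePeps_mulT T L B⟩

end Pool.Agent.Hhelper96.PEPS
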