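import Pool.Agent.Hhelper96.QA.Conj
import Pool.Agent.Hhelper96.QA.Pepo
import Pool.Agent.Hhelper96.QA.Loc
import Pool.Agent.WP.Final

/-!
Neighbourhoods of the images of classical Hamiltonians under quantum cellular automata.
-/

set_option autoImplicit false
set_option linter.unusedSectionVars false

open scoped BigOperators Topology
open Filter Matrix

namespace Pool.Agent.Hhelper96.PEPS

variable {d : ℕ}

theorem hamiltonian_conj {L : ℕ} [NeZero L] {F F' : Finset (ℤ × ℤ)}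
    (U : Matrix (Site L → Fin d) (Site L → Fin d) ℂ) (V : Matrix (F → Fin d) (F → Fin d) ℂ)
    (V' : Matrix (F' → Fin d) (F' → Fin d) ℂ)
    (h : ∀ v, Uᴴ * localTerm L F V v * U = localTerm L F' V' v) :
    Uᴴ * hamiltonian L F V * U = hamiltonian L F' V' := by
  unfold hamiltonian
  rw [Finset.mul_sum, Finset.sum_mul]
  exact Finset.sum_congr rfl (fun v _ => h v)

theorem opAt_diagonal {T S : Type} [Fintype T] [DecidableEq T] [Fintype S] [DecidableEq S]
    (κ : T → S) (g : (T → Fin d) → ℂ) :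
    opAt κ (Matrix.diagonal g) = Matrix.diagonal (fun x : S → Fin d => g (x ∘ κ)) := by
  classical
  ext s t
  unfold opAt
  by_cases hst : s = t
  · subst hst
    rw [if_pos (fun u _ => rfl), Matrix.diagonal_apply_eq, Matrix.diagonal_apply_eq]
  · rw [Matrix.diagonal_apply_ne _ hst]
    split_ifs with h
    · rw [Matrix.diagonal_apply_ne]
      intro hκ
      apply hst
      funext u
      by_cases hu : ∃ t, κ t = u
      · obtain ⟨t', rfl⟩ := hu
        exact congrFun hκ t'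
      · exact h u (fun t' ht' => hu ⟨t', ht'⟩)
    · rfl

theorem qca_main (d : ℕ) [NeZero d] (F : Finset (ℤ × ℤ)) (h0 : (F → Fin d) → ℝ)
    (hP : ∀ᶠ n : ℕ in atTop, ∀ x : Site (n + 1) → Fin d,
      ((n + 1 : ℕ) : ℝ) ^ 2 * h0 0 + (Finset.univ.filter (fun u => x u ≠ 0)).card ≤
        ∑ v : Site (n + 1), h0 (fun p => x (place (n + 1) v p)))
    (U : ∀ n : ℕ, Matrix (Site (n + 1) → Fin d) (Site (n + 1) → Fin d) ℂ) (hU : IsQCA U)
    (G : Finset (ℤ × ℤ)) (k0 : Matrix (G → Fin d) (G → Fin d) ℂ) (hk0 : k0.IsHermitian)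
    (hk : ∀ᶠ n in atTop, hamiltonian (n + 1) G k0 =
      U n * hamiltonian (n + 1) F (Matrix.diagonal (fun x => (h0 x : ℂ))) * (U n)ᴴ)
    (δ : ℝ) (hδ : 0 < δ) :
    ∃ lam > 0, ∀ k : Matrix (G → Fin d) (G → Fin d) ℂ, k.IsHermitian →
      (∀ a b, ‖k a b - k0 a b‖ ≤ lam) →
      ∃ ψ : ∀ n : ℕ, (Site (n + 1) → Fin d) → ℂ,
        (∀ᶠ n in atTop, IsGappedGround (hamiltonian (n + 1) G k) (1 / 2) (ψ n)) ∧
        (∀ᶠ n in atTop, ∃ D : ℕ, (D : ℝ) ≤ ((n + 1 : ℕ) : ℝ) ^ δ ∧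
          ∃ B : Site (n + 1) → Fin d → Fin D → Fin D → Fin D → Fin D → ℂ,
            √(∑ s, ‖sitePepsVec (n + 1) B s - ψ n s‖ ^ 2) ≤
              ((n + 1 : ℕ) : ℝ) ^ (-(1 / δ)) * √(∑ s, ‖ψ n s‖ ^ 2)) ∧
        ∀ R : Finset (ℤ × ℤ), ∃ C : ℝ, ∀ ε : ℝ, 0 < ε → ε ≤ 1 →
          ∃ D : ℕ, (D : ℝ) ≤ C * ε ^ (-(4 + δ)) ∧
          ∃ A : Fin d → Fin D → Fin D → Fin D → Fin D → ℂ,
            (∀ᶠ n in atTop, pepsVec (n + 1) A ≠ 0) ∧
            ∀ᶠ n in atTop, ∀ v : Site (n + 1),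
              traceNorm (reduced (n + 1) R v (ψ n) - reduced (n + 1) R v (pepsVec (n + 1) A)) ≤
                ε := by
  classical
  obtain ⟨hUu, ⟨DU, T, hT⟩, hloc⟩ := id hU
  obtain ⟨F', Φ, hΦ⟩ := hloc G
  obtain ⟨W, hW⟩ : ∃ W, W = F ∪ F' := ⟨_, rfl⟩
  have hFW : F ⊆ W := by rw [hW]; exact Finset.subset_union_left
  have hFW' : F' ⊆ W := by rw [hW]; exact Finset.subset_union_right
  obtain ⟨r, a₀, b₀, hr, hbox⟩ := exists_box W
  -- the classical interaction on the larger window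
  obtain ⟨g0, hg0⟩ : ∃ g0 : (W → Fin d) → ℝ, g0 = fun x => h0 (fun p => x ⟨p.1, hFW p.2⟩) :=
    ⟨_, rfl⟩
  have hP' : ∀ᶠ n : ℕ in atTop, ∀ x : Site (n + 1) → Fin d,
      ((n + 1 : ℕ) : ℝ) ^ 2 * g0 0 + (Finset.univ.filter (fun u => x u ≠ 0)).card ≤
        ∑ v : Site (n + 1), g0 (fun p => x (place (n + 1) v p)) := by
    filter_upwards [hP] with n hn x
    have e1 : g0 0 = h0 0 := by rw [hg0]; rfl
    rw [e1, hg0]
    exact hn x
  obtain ⟨δ', hδ'⟩ : ∃ δ', δ' = δ / 2 := ⟨_, rfl⟩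
  have hδ0 : 0 < δ' := by rw [hδ']; linarith
  have hδ1 : δ' ≤ δ := by rw [hδ']; linarith
  obtain ⟨lam₀, hlam₀, hmain⟩ := Pool.Agent.WP.main d W g0 hP' δ' hδ0
  obtain ⟨K, hK⟩ : ∃ K : ℝ, K = (Fintype.card (G → Fin d) : ℝ) ^ 2 := ⟨_, rfl⟩
  have hK0 : 0 ≤ K := by rw [hK]; positivity
  refine ⟨lam₀ / (K + 1), by positivity, fun k hkh hkl => ?_⟩
  -- the perturbation and its image
  obtain ⟨V, hV⟩ : ∃ V, V = k - k0 := ⟨_, rfl⟩
  have hVh : V.IsHermitian := by rw [hV]; exact hkh.sub hk0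
  obtain ⟨hΦh, hΦb⟩ := image_bound hUu hΦ V hVh
  have hVb : ∀ a b, ‖Φ V a b‖ ≤ lam₀ := by
    intro a b
    refine (hΦb a b).trans ?_
    refine (locBd_le V (by positivity : 0 ≤ lam₀ / (K + 1)) (fun a b => ?_)).trans ?_
    · rw [hV, Matrix.sub_apply]
      exact hkl a b
    · rw [← hK, mul_div_assoc']
      rw [div_le_iff₀ (by positivity)]
      have : 0 ≤ lam₀ := hlam₀.le
      linarith
  obtain ⟨h, hh⟩ : ∃ h, h = liftW hFW hFW' (Matrix.diagonal (fun x => (h0 x : ℂ))) (Φ V) :=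
    ⟨_, rfl⟩
  have hdiag : (Matrix.diagonal (fun x => (h0 x : ℂ)) :
      Matrix (F → Fin d) (F → Fin d) ℂ).IsHermitian := by
    rw [Matrix.isHermitian_diagonal_iff]
    intro x
    rw [IsSelfAdjoint, Complex.star_def, Complex.conj_ofReal]
  have hhh : h.IsHermitian := by
    rw [hh]
    exact liftW_isHermitian hFW hFW' hdiag hΦh
  have hhl : ∀ a b, ‖h a b - Matrix.diagonal (fun x => (g0 x : ℂ)) a b‖ ≤ lam₀ := by
    intro a b
    have e1 : (Matrix.diagonal (fun x => (g0 x : ℂ)) : Matrix (W → Fin d) (W → Fin d) ℂ) =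
        opAt (fun p : F => (⟨p.1, hFW p.2⟩ : W)) (Matrix.diagonal (fun x => (h0 x : ℂ))) := by
      rw [opAt_diagonal, hg0]
      rfl
    rw [hh, liftW, e1, Matrix.add_apply, add_sub_cancel_left]
    unfold opAt
    split_ifs
    · exact hVb _ _
    · rw [norm_zero]; exact hlam₀.le
  obtain ⟨ψ, h1, h2, h3⟩ := hmain h hhh hhl
  -- the Hamiltonians
  have hham : ∀ᶠ n in atTop, (U n)ᴴ * hamiltonian (n + 1) G k * U n = hamiltonian (n + 1) W h := by
    filter_upwards [hUu, hΦ, hk, eventually_ge_atTop r] with n hn1 hn2 hn3 hn4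
    have e1 : hamiltonian (n + 1) G k = hamiltonian (n + 1) G k0 + hamiltonian (n + 1) G V := by
      rw [← hamiltonian_add, hV]
      congr 1
      abel
    have e2 := hamiltonian_conj (U n) V (Φ V) (hn2 V)
    have e3 : hamiltonian (n + 1) W h =
        hamiltonian (n + 1) F (Matrix.diagonal (fun x => (h0 x : ℂ))) +
          hamiltonian (n + 1) F' (Φ V) := by
      rw [hh]
      exact hamiltonian_liftW hFW hFW' (fun v => place_injective (by omega : r ≤ n + 1) W a₀ b₀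
        hbox v) _ _
    rw [e1, Matrix.mul_add, Matrix.add_mul, e2, e3, hn3]
    congr 1
    calc (U n)ᴴ * (U n * hamiltonian (n + 1) F (Matrix.diagonal (fun x => (h0 x : ℂ))) *
          (U n)ᴴ) * U n = ((U n)ᴴ * U n) *
            hamiltonian (n + 1) F (Matrix.diagonal (fun x => (h0 x : ℂ))) *
              ((U n)ᴴ * U n) := by noncomm_ring
      _ = _ := by rw [hn1, Matrix.one_mul, Matrix.mul_one]
  refine ⟨fun n => (U n).mulVec (ψ n), ?_, ?_, ?_⟩
  · filter_upwards [hUu, hham, h1] with n hn1 hn2 hn3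
    exact gapped_conj hn1 (by rw [hn2]; exact hn3)
  · -- the global approximation
    have hlarge : ∀ᶠ n : ℕ in atTop, (DU : ℝ) ≤ ((n + 1 : ℕ) : ℝ) ^ δ' := by
      have e1 : Tendsto (fun n : ℕ => ((n + 1 : ℕ) : ℝ) ^ δ') atTop atTop := by
        apply (tendsto_rpow_atTop hδ0).comp
        exact (tendsto_natCast_atTop_atTop).comp (tendsto_add_atTop_nat 1)
      exact e1.eventually_ge_atTop _
    filter_upwards [h2, hUu, hT, hlarge] with n hn hn1 hn2 hn3
    obtain ⟨D, hD, B, hB⟩ := hn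
    have hn0 : (1 : ℝ) ≤ ((n + 1 : ℕ) : ℝ) := by
      push_cast
      linarith [(Nat.cast_nonneg n : (0 : ℝ) ≤ n)]
    have hnp : (0 : ℝ) < ((n + 1 : ℕ) : ℝ) := by linarith
    obtain ⟨B', hB'⟩ := pepo_site T (n + 1) B
    refine ⟨DU * D, ?_, B', ?_⟩
    · push_cast
      have e1 : ((n + 1 : ℕ) : ℝ) ^ δ = ((n + 1 : ℕ) : ℝ) ^ δ' * ((n + 1 : ℕ) : ℝ) ^ δ' := by
        rw [← Real.rpow_add hnp]
        congr 1
        rw [hδ']
        ring
      push_cast at e1 hD hn3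
      rw [e1]
      exact mul_le_mul hn3 hD (Nat.cast_nonneg _) (by positivity)
    · have e1 : ∑ s, ‖sitePepsVec (n + 1) B' s - (U n).mulVec (ψ n) s‖ ^ 2 =
          ∑ s, ‖sitePepsVec (n + 1) B s - ψ n s‖ ^ 2 := by
        have e2 := sqn_unitary hn1 (fun s => sitePepsVec (n + 1) B s - ψ n s)
        have e3 : (U n).mulVec (fun s => sitePepsVec (n + 1) B s - ψ n s) =
            fun s => sitePepsVec (n + 1) B' s - (U n).mulVec (ψ n) s := by
          have e4 : (fun s => sitePepsVec (n + 1) B s - ψ n s) =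
              sitePepsVec (n + 1) B - ψ n := rfl
          rw [e4, Matrix.mulVec_sub, hB', ← hn2]
          rfl
        rw [e3] at e2
        exact e2
      have e2 : ∑ s, ‖(U n).mulVec (ψ n) s‖ ^ 2 = ∑ s, ‖ψ n s‖ ^ 2 := sqn_unitary hn1 (ψ n)
      rw [e1, e2]
      refine hB.trans (mul_le_mul_of_nonneg_right ?_ (Real.sqrt_nonneg _))
      apply Real.rpow_le_rpow_of_exponent_le hn0
      exact neg_le_neg (one_div_le_one_div_of_le hδ0 hδ1)
  · -- the local approximation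
    intro R
    obtain ⟨R', hR'⟩ := reduced_qca U hU R
    obtain ⟨C, hC⟩ := h3 R'
    refine ⟨DU * |C|, fun ε hε hε1 => ?_⟩
    obtain ⟨D, hD, A, hA1, hA2⟩ := hC ε hε hε1
    obtain ⟨A', hA'⟩ := pepo_peps T A
    refine ⟨DU * D, ?_, A', ?_, ?_⟩
    · push_cast
      have e1 : ε ^ (-(4 + δ')) ≤ ε ^ (-(4 + δ)) := by
        apply Real.rpow_le_rpow_of_exponent_ge hε hε1
        linarith
      have e2 : C * ε ^ (-(4 + δ')) ≤ |C| * ε ^ (-(4 + δ)) := by
        refine (mul_le_mul_of_nonneg_right (le_abs_self C) (by positivity)).trans ?_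
        exact mul_le_mul_of_nonneg_left e1 (abs_nonneg _)
      calc (DU : ℝ) * D ≤ DU * (|C| * ε ^ (-(4 + δ))) :=
            mul_le_mul_of_nonneg_left (hD.trans e2) (Nat.cast_nonneg _)
        _ = DU * |C| * ε ^ (-(4 + δ)) := by ring
    · filter_upwards [hA1, hUu, hT] with n hn hn1 hn2 h0'
      apply hn
      have e1 : sqn (pepsVec (n + 1) A) = 0 := by
        rw [← sqn_unitary hn1, hn2, ← hA', h0']
        unfold sqn
        simp
      by_contra h5
      exact absurd e1 (sqn_pos h5).ne'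
    · filter_upwards [hA1, hA2, hT, hR', h1] with n hn1 hn2 hn3 hn4 hn5 v
      have e1 := hn4 (ψ n) (pepsVec (n + 1) A) hn5.1 hn1 v
      rw [hA', ← hn3]
      exact e1.trans (hn2 v)

end Pool.Agent.Hhelper96.PEPS
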